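import Pool.Agent.Work.MP_ef7f46_tn.Interface

/-! Block BALA of project TN (MP_ef7f46_co), by helper94. -/

set_option autoImplicit false
open Classical Finset

noncomputable section

namespace TN

namespace BALA

lemma dg_smul {Q Λ : Type} [Fintype Λ] (inc : Λ → Finset Q) (w : Λ → ℝ) {R : ℝ} (hR : 0 < R)
    (y : Q) : dg inc w y = R * dg inc (fun ℓ => w ℓ / R) y := by
  unfold dg
  rw [mul_sum]
  refine sum_congr rfl (fun ℓ _ => ?_)
  split_ifs
  · field_simp
  · simp

lemma qq_pos {Q Λ : Type} [Fintype Q] [Fintype Λ] (X : Ctx Q Λ) (hX : Reg X) : 0 < qq X := by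
  unfold qq
  have h1 : (0 : ℝ) < X.N := by exact_mod_cast hX.lin.Npos
  have h2 : (0 : ℝ) < X.M := by exact_mod_cast hX.lin.Mpos
  positivity

lemma cardQ {Q Λ : Type} [Fintype Q] [Fintype Λ] (X : Ctx Q Λ) (hX : Reg X) :
    (Fintype.card Q : ℝ) = qq X := by
  rw [hX.lin.cardQ]
  unfold qq
  push_cast
  ring

/-- Cauchy-Schwarz -/
lemma sum_abs_le {Q Λ : Type} [Fintype Q] [Fintype Λ] (X : Ctx Q Λ) (hX : Reg X)
    (v v' : Λ → ℝ) (h : Near X v v') :
    ∑ y, |dg X.inc v y - dg X.inc v' y| ≤ X.tau * X.N * qq X := by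
  have hq := qq_pos X hX
  have hN : (0 : ℝ) < X.N := by exact_mod_cast hX.lin.Npos
  have ht := hX.taupos
  have h1 : (∑ y, |dg X.inc v y - dg X.inc v' y|) ^ 2 ≤
      (Fintype.card Q : ℝ) * ∑ y, |dg X.inc v y - dg X.inc v' y| ^ 2 := by
    have := sq_sum_le_card_mul_sum_sq (s := (univ : Finset Q))
      (f := fun y => |dg X.inc v y - dg X.inc v' y|)
    simpa using this
  have h2 : ∑ y, |dg X.inc v y - dg X.inc v' y| ^ 2 ≤ X.tau ^ 2 * X.N ^ 2 * qq X := by
    have : ∑ y, |dg X.inc v y - dg X.inc v' y| ^ 2 =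
        ∑ y, (dg X.inc v y - dg X.inc v' y) ^ 2 := sum_congr rfl (fun y _ => sq_abs _)
    rw [this]
    exact h
  rw [cardQ X hX] at h1
  have h3 : (∑ y, |dg X.inc v y - dg X.inc v' y|) ^ 2 ≤ (X.tau * X.N * qq X) ^ 2 := by
    calc _ ≤ qq X * ∑ y, |dg X.inc v y - dg X.inc v' y| ^ 2 := h1
      _ ≤ qq X * (X.tau ^ 2 * X.N ^ 2 * qq X) := mul_le_mul_of_nonneg_left h2 hq.le
      _ = _ := by ring
  exact le_of_sq_le_sq h3 (by positivity)

end BALA

theorem bala_ok (h1 : Stmt_CHE) (h2 : Stmt_LCARD) : Stmt_BALA := by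
  intro Q Λ _ _ X hX w R hR hw β hdm F hF
  have hq := BALA.qq_pos X hX
  have hcard := BALA.cardQ X hX
  have hN : (0 : ℝ) < X.N := by exact_mod_cast hX.lin.Npos
  have hM : (0 : ℝ) < X.M := by exact_mod_cast hX.lin.Mpos
  have hb : (0 : ℝ) < X.b := by exact_mod_cast hX.bpos
  set v : Λ → ℝ := fun ℓ => w ℓ / R with hv
  have hv01 : U01 v := by
    intro ℓ
    refine ⟨div_nonneg (hw ℓ).1 hR.le, ?_⟩
    rw [hv]
    simp only
    rw [div_le_one hR]
    exact (hw ℓ).2
  obtain ⟨hnet, hnear, -⟩ := h1 Q Λ X hX v hv01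
  set v' := appr X v with hv'
  obtain ⟨-, hdc, -, -⟩ := h2 Q Λ X.inc X.N X.M hX.lin
  have hg : IsDM X β F (dm X β F) := by
    unfold dm
    rw [dif_pos (hdm F)]
    exact (hdm F).choose_spec
  set g := dm X β F with hgdef
  obtain ⟨hg01, hgnet⟩ := hg
  have hc : 0 ≤ (X.b : ℝ) / qq X := by positivity
  -- the left side
  have e1 : ∑ ℓ, w ℓ * hh X β F ℓ = (X.b / qq X) * ∑ y, g y * dg X.inc w y := by
    rw [hdc w g, mul_sum]
    refine sum_congr rfl (fun ℓ _ => ?_)
    unfold hh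
    ring
  have e2 : ∑ y, g y * dg X.inc w y = R * ∑ y, g y * dg X.inc v y := by
    rw [mul_sum]
    refine sum_congr rfl (fun y _ => ?_)
    rw [BALA.dg_smul X.inc w hR y]
    ring
  have e3 : ∑ y, g y * dg X.inc v y ≤ ∑ y, g y * dg X.inc v' y + X.tau * X.N * qq X := by
    have := BALA.sum_abs_le X hX v v' hnear
    have h4 : ∑ y, g y * dg X.inc v y ≤
        ∑ y, (g y * dg X.inc v' y + |dg X.inc v y - dg X.inc v' y|) := by
      refine sum_le_sum (fun y _ => ?_)
      have h5 : g y * (dg X.inc v y - dg X.inc v' y) ≤ |dg X.inc v y - dg X.inc v' y| := by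
        calc _ ≤ |g y * (dg X.inc v y - dg X.inc v' y)| := le_abs_self _
          _ = g y * |dg X.inc v y - dg X.inc v' y| := by rw [abs_mul, abs_of_nonneg (hg01 y).1]
          _ ≤ 1 * |dg X.inc v y - dg X.inc v' y| :=
            mul_le_mul_of_nonneg_right (hg01 y).2 (abs_nonneg _)
          _ = _ := one_mul _
      linarith [h5]
    rw [sum_add_distrib] at h4
    linarith
  have e4 : (X.b / qq X) * ∑ y, g y * dg X.inc v' y ≤
      ∑ j ∈ F, dg X.inc v' (β j) + X.eps * X.N * X.b := by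
    have := hgnet v' hnet
    have := (abs_le.mp this).1
    linarith
  have e5 : ∑ j ∈ F, dg X.inc v' (β j) ≤ ∑ j ∈ F, dg X.inc v (β j) + X.b * (X.eta * X.N) := by
    have h6 : ∑ j ∈ F, dg X.inc v' (β j) ≤ ∑ j ∈ F, (dg X.inc v (β j) + X.eta * X.N) := by
      refine sum_le_sum (fun j hj => ?_)
      have h7 := hF j hj
      unfold Exc at h7
      simp only [mem_filter, mem_univ, true_and, not_lt] at h7
      have := (abs_le.mp h7).1
      linarith
    rw [sum_add_distrib, sum_const, nsmul_eq_mul] at h6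
    have h8 : (F.card : ℝ) ≤ X.b := by
      have := card_le_univ F
      simp only [Fintype.card_fin] at this
      exact_mod_cast this
    have h9 : (F.card : ℝ) * (X.eta * X.N) ≤ X.b * (X.eta * X.N) :=
      mul_le_mul_of_nonneg_right h8 (mul_nonneg hX.etapos.le hN.le)
    linarith
  have e6 : ∑ j ∈ F, dg X.inc w (β j) = R * ∑ j ∈ F, dg X.inc v (β j) := by
    rw [mul_sum]
    refine sum_congr rfl (fun j _ => ?_)
    rw [BALA.dg_smul X.inc w hR (β j)]
  rw [e1, e2, e6]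
  have e7 : (X.b / qq X) * ∑ y, g y * dg X.inc v y ≤
      ∑ j ∈ F, dg X.inc v (β j) + X.b * (X.eta * X.N) + X.eps * X.N * X.b +
        X.b * (X.tau * X.N) := by
    have h10 := mul_le_mul_of_nonneg_left e3 hc
    rw [mul_add] at h10
    have h11 : X.b / qq X * (X.tau * X.N * qq X) = X.b * (X.tau * X.N) := by
      field_simp
    rw [h11] at h10
    linarith
  have e8 := mul_le_mul_of_nonneg_left e7 hR.le
  calc (X.b / qq X) * (R * ∑ y, g y * dg X.inc v y)
      = R * ((X.b / qq X) * ∑ y, g y * dg X.inc v y) := by ring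
    _ ≤ _ := e8
    _ = _ := by ring

end TN
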