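import Pool.Agent.Work.MP_ef7f46_tn.Interface

/-! Block CE1 of project TN (MP_ef7f46_co), by helper94. -/

set_option autoImplicit false
open Classical Finset

noncomputable section

namespace TN

namespace CE1

lemma ex0_card (h1 : Stmt_CHE) (h2 : Stmt_STB) {Q Λ : Type} [Fintype Q] [Fintype Λ]
    (X : Ctx Q Λ) (hX : Reg X) (hd : (X.tau / X.eta) ^ 2 ≤ X.del / 2) (z : Pos X → Q)
    (I : Finset (Pos X)) (i : ℕ) : ((ex0 X (st X z I i)).card : ℝ) ≤ X.del * qq X := by
  have hq : 0 < qq X := by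
    unfold qq
    have h1 : (0 : ℝ) < X.N := by exact_mod_cast hX.lin.Npos
    have h2 : (0 : ℝ) < X.M := by exact_mod_cast hX.lin.Mpos
    positivity
  obtain ⟨-, hst, hwc, -⟩ := h2 Q Λ X hX
  have hS : ∀ ℓ, 0 ≤ (st X z I i).W ℓ ∧ (st X z I i).W ℓ ≤ Real.exp X.lam ∧
      0 ≤ (st X z I i).s ℓ ∧ (st X z I i).s ℓ ≤ X.lam := by
    intro ℓ
    obtain ⟨a, _, c, d, e⟩ := hst z I i ℓ
    exact ⟨a, e, c, d⟩
  obtain ⟨hU, -⟩ := hwc _ hS
  obtain ⟨-, -, hE⟩ := h1 Q Λ X hX _ hU
  have hB : ((bigG X (st X z I i).W).card : ℝ) ≤ X.del / 2 * qq X := by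
    unfold bigG
    split_ifs with h
    · exact h
    · simp only [card_empty, Nat.cast_zero]
      have := hX.delpos
      positivity
  have hC : ((ex0 X (st X z I i)).card : ℝ) ≤
      ((Exc X (fun ℓ => wc X (st X z I i) ℓ / Rc X)).card : ℝ) +
        ((bigG X (st X z I i).W).card : ℝ) := by
    unfold ex0
    exact_mod_cast card_union_le _ _
  have := mul_le_mul_of_nonneg_right hd hq.le
  nlinarith [hC, hE, hB, this]

lemma pairs_card {P : Type} [Fintype P] (S : Finset (Finset P × Finset P)) (n : ℕ)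
    (h : Fintype.card P = n) : (S.card : ℝ) ≤ (4 : ℝ) ^ n := by
  have h1 : S.card ≤ Fintype.card (Finset P × Finset P) := card_le_univ _
  rw [Fintype.card_prod, Fintype.card_finset, h, ← mul_pow] at h1
  have h2 : (S.card : ℝ) ≤ (((2 * 2) ^ n : ℕ) : ℝ) := Nat.cast_le.mpr h1
  refine le_trans h2 (le_of_eq ?_)
  push_cast
  norm_num

end CE1

theorem ce1_ok (h1 : Stmt_CHE) (h2 : Stmt_STB) (h3 : Stmt_ADP) (h4 : Stmt_CNT) : Stmt_CE1 := by
  intro Q Λ _ _ X hX hd
  have hcardQ : (Fintype.card Q : ℝ) = qq X := by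
    rw [hX.lin.cardQ]
    unfold qq
    push_cast
    ring
  have hq : 0 < qq X := by
    unfold qq
    have h1 : (0 : ℝ) < X.N := by exact_mod_cast hX.lin.Npos
    have h2 : (0 : ℝ) < X.M := by exact_mod_cast hX.lin.Mpos
    positivity
  have hcardP : Fintype.card (Pos X) = X.lam * X.M := by
    rw [Fintype.card_prod, Fintype.card_fin, Fintype.card_fin]
    exact hX.mb
  -- the sets for a pair
  let T : Finset (Pos X) × Finset (Pos X) → Finset (Pos X → Q) := fun IR =>
    univ.filter (fun z : Pos X → Q => ∀ p ∈ IR.2, z p ∈ ex0 X (st X z IR.1 p.1))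
  let PR : Finset (Finset (Pos X) × Finset (Pos X)) :=
    univ.filter (fun IR => (X.M : ℝ) / 100 < (IR.2.card : ℝ))
  have hsub : (univ.filter (fun z : Pos X → Q => ∃ I : Finset (Pos X),
      (X.M : ℝ) / 100 < ((bad1 X z I).card : ℝ))) ⊆ PR.biUnion T := by
    intro z hz
    simp only [mem_filter, mem_univ, true_and] at hz
    obtain ⟨I, hI⟩ := hz
    rw [mem_biUnion]
    refine ⟨(I, bad1 X z I), ?_, ?_⟩
    · simp only [PR, mem_filter, mem_univ, true_and]
      exact hI
    · simp only [T, mem_filter, mem_univ, true_and]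
      intro p hp
      unfold bad1 at hp
      exact (mem_filter.mp hp).2
  have hT : ∀ IR ∈ PR, ((T IR).card : ℝ) ≤
      X.del ^ ((X.M : ℝ) / 100) * qq X ^ (X.lam * X.M) := by
    intro IR hIR
    have hR : (X.M : ℝ) / 100 < (IR.2.card : ℝ) := by
      simpa only [PR, mem_filter, mem_univ, true_and] using hIR
    have key := h4 Q (Pos X) (fun p => p.1.val) ∅ IR.2
      (fun p z => ex0 X (st X z IR.1 p.1)) X.del hX.delpos.le (disjoint_empty_right _)
      (by
        intro p _ z z' hzz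
        have : st X z IR.1 p.1 = st X z' IR.1 p.1 := by
          apply h3
          intro p' hp'
          exact hzz p' (Or.inr hp')
        simp only [this])
      (by
        intro p _ z
        rw [hcardQ]
        exact CE1.ex0_card h1 h2 X hX hd z IR.1 p.1)
    rw [hcardQ, hcardP] at key
    refine le_trans (le_trans (le_of_eq ?_) key) ?_
    · refine congrArg Nat.cast (congrArg Finset.card ?_)
      ext z
      simp only [T, mem_filter, mem_univ, true_and]
    have hdel : X.del ^ IR.2.card ≤ X.del ^ ((X.M : ℝ) / 100) := by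
      rw [← Real.rpow_natCast]
      exact Real.rpow_le_rpow_of_exponent_ge hX.delpos hX.delle hR.le
    exact mul_le_mul_of_nonneg_right hdel (by positivity)
  have hPR : (PR.card : ℝ) ≤ (4 : ℝ) ^ (X.lam * X.M) := by
    exact CE1.pairs_card PR (X.lam * X.M) hcardP
  calc ((univ.filter (fun z : Pos X → Q => ∃ I : Finset (Pos X),
      (X.M : ℝ) / 100 < ((bad1 X z I).card : ℝ))).card : ℝ)
      ≤ ((PR.biUnion T).card : ℝ) := by exact_mod_cast card_le_card hsub
    _ ≤ ∑ IR ∈ PR, ((T IR).card : ℝ) := by exact_mod_cast card_biUnion_le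
    _ ≤ ∑ IR ∈ PR, (X.del ^ ((X.M : ℝ) / 100) * qq X ^ (X.lam * X.M)) := sum_le_sum hT
    _ = PR.card * (X.del ^ ((X.M : ℝ) / 100) * qq X ^ (X.lam * X.M)) := by
      rw [sum_const, nsmul_eq_mul]
    _ ≤ (4 : ℝ) ^ (X.lam * X.M) * (X.del ^ ((X.M : ℝ) / 100) * qq X ^ (X.lam * X.M)) := by
      refine mul_le_mul_of_nonneg_right hPR ?_
      have := Real.rpow_nonneg hX.delpos.le ((X.M : ℝ) / 100)
      positivity
    _ = _ := by ring

end TN
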